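import Mathlib

/-!
# Joining two nonsingular block graphs by an edge can give a singular block graph (MP_025d69_co, Q1)

The block graph on four vertices formed by a triangle and a pendant edge (joined at the pendant
vertex) and the block graph on seven vertices formed by a triangle `0,1,4` with further triangles at
`1` and at `4` (joined at `0`).
-/

namespace Pool.Agent.Results.MP_025d69_co.JoinSingular

open SimpleGraph

/-- `B` is the vertex set of a block: a maximal connected (induced) subgraph without a cut vertex. -/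
def IsBlock {V : Type} (G : SimpleGraph V) (B : Set V) : Prop :=
  Maximal (fun B : Set V => (G.induce B).Connected ∧ ∀ c ∈ B, (G.induce (B \ {c})).Preconnected) B

/-- A block graph: a connected graph in which every block is a complete graph. -/
def IsBlockGraph {V : Type} (G : SimpleGraph V) : Prop :=
  G.Connected ∧ ∀ B : Set V, IsBlock G B → G.IsClique B

/-- The disjoint union of two graphs together with the edge from `v₁` to `v₂`. -/
def joinEdge {V₁ V₂ : Type} (G₁ : SimpleGraph V₁) (G₂ : SimpleGraph V₂) (v₁ : V₁) (v₂ : V₂) :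
    SimpleGraph (V₁ ⊕ V₂) :=
  (G₁ ⊕g G₂) ⊔ SimpleGraph.edge (Sum.inl v₁) (Sum.inr v₂)

/-- separation certificates show that every induced subgraph without a cut vertex is a clique -/
theorem clique_of_cert {V : Type} (G : SimpleGraph V)
    (h : ∀ x y : V, x ≠ y → ¬ G.Adj x y → ∃ c : V, c ≠ x ∧ c ≠ y ∧ ∃ S : Set V, x ∈ S ∧ y ∉ S ∧
      ∀ u v : V, u ∈ S → v ∉ S → v ≠ c → u ≠ c → ¬ G.Adj u v) (B : Set V)
    (hB : (G.induce B).Connected ∧ ∀ c ∈ B, (G.induce (B \ {c})).Preconnected) :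
    G.IsClique B := by
  intro x hx y hy hxy
  by_contra hadj
  obtain ⟨c, hcx, hcy, S, hxS, hyS, hS⟩ := h x y hxy hadj
  have hpre : (G.induce (B \ {c})).Preconnected := by
    by_cases hc : c ∈ B
    · exact hB.2 c hc
    · have : B \ {c} = B := Set.sdiff_singleton_eq_self hc
      rw [this]
      exact hB.1.preconnected
  have hx' : x ∈ B \ {c} := ⟨hx, fun h => hcx (Set.mem_singleton_iff.mp h).symm⟩
  have hy' : y ∈ B \ {c} := ⟨hy, fun h => hcy (Set.mem_singleton_iff.mp h).symm⟩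
  obtain ⟨p⟩ := hpre ⟨x, hx'⟩ ⟨y, hy'⟩
  have key : ∀ (a b : ↥(B \ {c})) (p : (G.induce (B \ {c})).Walk a b), (a : V) ∈ S → (b : V) ∈ S := by
    intro a b p
    induction p with
    | nil => exact id
    | cons hab p ih =>
      intro ha
      apply ih
      by_contra hb
      rename_i u v w
      exact hS _ _ ha hb (fun h => v.property.2 (Set.mem_singleton_iff.mpr h))
        (fun h => u.property.2 (Set.mem_singleton_iff.mpr h)) hab
  exact hyS (key _ _ p hxS)

/-- triangle `1,2,3` with the pendant edge `0,1` -/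
def G1 : SimpleGraph (Fin 4) where
  Adj x y := (x, y) ∈ ([(1,2),(1,3),(2,3),(0,1),(2,1),(3,1),(3,2),(1,0)] : List (Fin 4 × Fin 4))
  symm := ⟨by decide⟩
  loopless := ⟨by decide⟩

/-- triangle `0,1,4` with the further triangles `1,2,3` and `4,5,6` -/
def G2 : SimpleGraph (Fin 7) where
  Adj x y := (x, y) ∈ ([(1,2),(1,3),(2,3),(4,5),(4,6),(5,6),(0,1),(0,4),(1,4),
    (2,1),(3,1),(3,2),(5,4),(6,4),(6,5),(1,0),(4,0),(4,1)] : List (Fin 7 × Fin 7))
  symm := ⟨by decide⟩
  loopless := ⟨by decide⟩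

instance : DecidableRel G1.Adj := fun x y => by unfold G1; infer_instance
instance : DecidableRel G2.Adj := fun x y => by unfold G2; infer_instance


/-- separation certificates in a decidable form -/
theorem clique_of_cert' {n : ℕ} (G : SimpleGraph (Fin n)) [DecidableRel G.Adj]
    (c : Fin n → Fin n → Fin n) (S : Fin n → Fin n → Finset (Fin n))
    (h : ∀ x y : Fin n, x = y ∨ G.Adj x y ∨ (c x y ≠ x ∧ c x y ≠ y ∧
      x ∈ S x y ∧ y ∉ S x y ∧
      ∀ u v : Fin n, ¬ u ∈ S x y ∨ v ∈ S x y ∨ v = c x y ∨ u = c x y ∨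
        ¬ G.Adj u v)) (B : Set (Fin n))
    (hB : (G.induce B).Connected ∧ ∀ c ∈ B, (G.induce (B \ {c})).Preconnected) :
    G.IsClique B := by
  apply clique_of_cert G _ B hB
  intro x y hxy hadj
  rcases h x y with h0 | h0 | ⟨h1, h2, h3, h4, h5⟩
  · exact absurd h0 hxy
  · exact absurd h0 hadj
  refine ⟨c x y, h1, h2, {v | v ∈ S x y}, h3, h4, fun u v hu hv hvc huc => ?_⟩
  rcases h5 u v with h | h | h | h | h
  · exact absurd hu h
  · exact absurd h hv
  · exact absurd h hvc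
  · exact absurd h huc
  · exact h

theorem connected_of_step {n : ℕ} (G : SimpleGraph (Fin (n + 1)))
    (f : Fin (n + 1) → Fin (n + 1)) (hf : ∀ x, x = 0 ∨ (f x < x ∧ G.Adj x (f x))) :
    G.Connected := by
  rw [SimpleGraph.connected_iff_exists_forall_reachable]
  refine ⟨0, ?_⟩
  have key : ∀ k : ℕ, ∀ w : Fin (n + 1), w.val ≤ k → G.Reachable 0 w := by
    intro k
    induction k with
    | zero =>
      intro w hw
      have : w = 0 := Fin.ext (by simpa using hw)
      rw [this]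
    | succ k ih =>
      intro w hw
      rcases hf w with h | ⟨h1, h2⟩
      · rw [h]
      · have h3 : (f w).val < w.val := h1
        exact (ih (f w) (by omega)).trans h2.symm.reachable
  exact fun w => key _ w le_rfl

theorem block_G1 : IsBlockGraph G1 := by
  refine ⟨connected_of_step G1 ![0, 0, 1, 1] (by decide), fun B hB => clique_of_cert' G1
    (fun _ _ => 1) (fun x _ => if x = 0 then {0} else {2, 3}) (by decide) B hB.1⟩

theorem block_G2 : IsBlockGraph G2 := by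
  refine ⟨connected_of_step G2 ![0, 0, 1, 1, 0, 4, 4] (by decide), fun B hB => clique_of_cert' G2
    (fun x y => if x = 2 ∨ x = 3 then 1 else if x = 5 ∨ x = 6 then 4 else
      if y = 2 ∨ y = 3 then 1 else 4)
    (fun x y => if x = 2 ∨ x = 3 then {2, 3} else if x = 5 ∨ x = 6 then {5, 6} else
      if y = 2 ∨ y = 3 then {0, 4, 5, 6} else {0, 1, 2, 3}) (by decide) B hB.1⟩

theorem det_ne_zero {n : ℕ} (G : SimpleGraph (Fin n)) [DecidableRel G.Adj]
    (B : Matrix (Fin n) (Fin n) ℤ) (c : ℤ) (hc : c ≠ 0)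
    (h : G.adjMatrix ℤ * B = c • (1 : Matrix (Fin n) (Fin n) ℤ)) : (G.adjMatrix ℝ).det ≠ 0 := by
  have h1 : (G.adjMatrix ℤ).det ≠ 0 := by
    intro h0
    have h2 := congrArg Matrix.det h
    rw [Matrix.det_mul, h0, zero_mul, Matrix.det_smul, Matrix.det_one, mul_one] at h2
    exact pow_ne_zero _ hc h2.symm
  have h2 : (G.adjMatrix ℝ) = (G.adjMatrix ℤ).map (Int.castRingHom ℝ) := by
    ext i j
    simp [SimpleGraph.adjMatrix_apply]
  rw [h2, ← RingHom.mapMatrix_apply, ← RingHom.map_det]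
  simpa using h1

theorem det_G1 : (G1.adjMatrix ℝ).det ≠ 0 := by
  refine det_ne_zero G1 !![2,1,-1,-1; 1,0,0,0; -1,0,0,1; -1,0,1,0] 1 one_ne_zero ?_
  decide

theorem det_G2 : (G2.adjMatrix ℝ).det ≠ 0 := by
  refine det_ne_zero G2 !![3,3,-3,-3,3,-3,-3; 3,-1,1,1,1,-1,-1; -3,1,-1,5,-1,1,1;
    -3,1,5,-1,-1,1,1; 3,1,-1,-1,-1,1,1; -3,-1,1,1,1,-1,5; -3,-1,1,1,1,5,-1] 6 (by norm_num) ?_
  decide

theorem join_ll {V₁ V₂ : Type} (G₁ : SimpleGraph V₁) (G₂ : SimpleGraph V₂) (v₁ : V₁) (v₂ : V₂)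
    (i j : V₁) : (joinEdge G₁ G₂ v₁ v₂).Adj (Sum.inl i) (Sum.inl j) ↔ G₁.Adj i j := by
  simp [joinEdge, SimpleGraph.edge_adj]

theorem join_rr {V₁ V₂ : Type} (G₁ : SimpleGraph V₁) (G₂ : SimpleGraph V₂) (v₁ : V₁) (v₂ : V₂)
    (i j : V₂) : (joinEdge G₁ G₂ v₁ v₂).Adj (Sum.inr i) (Sum.inr j) ↔ G₂.Adj i j := by
  simp [joinEdge, SimpleGraph.edge_adj]

theorem join_lr {V₁ V₂ : Type} (G₁ : SimpleGraph V₁) (G₂ : SimpleGraph V₂) (v₁ : V₁) (v₂ : V₂)
    (i : V₁) (j : V₂) : (joinEdge G₁ G₂ v₁ v₂).Adj (Sum.inl i) (Sum.inr j) ↔ i = v₁ ∧ j = v₂ := by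
  simp [joinEdge, SimpleGraph.edge_adj]

theorem join_rl {V₁ V₂ : Type} (G₁ : SimpleGraph V₁) (G₂ : SimpleGraph V₂) (v₁ : V₁) (v₂ : V₂)
    (i : V₁) (j : V₂) : (joinEdge G₁ G₂ v₁ v₂).Adj (Sum.inr j) (Sum.inl i) ↔ i = v₁ ∧ j = v₂ := by
  simp [joinEdge, SimpleGraph.edge_adj, and_comm]

instance decJoin : DecidableRel (joinEdge G1 G2 0 0).Adj
  | Sum.inl i, Sum.inl j => decidable_of_iff (G1.Adj i j) (join_ll G1 G2 0 0 i j).symm
  | Sum.inr i, Sum.inr j => decidable_of_iff (G2.Adj i j) (join_rr G1 G2 0 0 i j).symm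
  | Sum.inl i, Sum.inr j => decidable_of_iff (i = 0 ∧ j = 0) (join_lr G1 G2 0 0 i j).symm
  | Sum.inr j, Sum.inl i => decidable_of_iff (i = 0 ∧ j = 0) (join_rl G1 G2 0 0 i j).symm

theorem det_join : ((joinEdge G1 G2 0 0).adjMatrix ℝ).det = 0 := by
  have h1 : ((joinEdge G1 G2 0 0).adjMatrix ℤ).det = 0 := by
    rw [← Matrix.exists_mulVec_eq_zero_iff]
    refine ⟨Sum.elim ![2, 1, -1, -1] ![-1, -1, 1, 1, -1, 1, 1], ?_, ?_⟩
    · decide
    · decide
  have h2 : ((joinEdge G1 G2 0 0).adjMatrix ℝ) =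
      ((joinEdge G1 G2 0 0).adjMatrix ℤ).map (Int.castRingHom ℝ) := by
    ext i j
    simp [SimpleGraph.adjMatrix_apply]
  rw [h2, ← RingHom.mapMatrix_apply, ← RingHom.map_det, h1, map_zero]

/-- There are two vertex-disjoint nonsingular block graphs (with `4` and with `7` vertices) such that
the block graph obtained by joining a vertex of the first to a vertex of the second by an edge is
singular. -/
theorem result : ∃ (G₁ : SimpleGraph (Fin 4)) (G₂ : SimpleGraph (Fin 7)) (v₁ : Fin 4) (v₂ : Fin 7)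
    (_ : DecidableRel G₁.Adj) (_ : DecidableRel G₂.Adj)
    (_ : DecidableRel (joinEdge G₁ G₂ v₁ v₂).Adj),
    IsBlockGraph G₁ ∧ IsBlockGraph G₂ ∧
    (G₁.adjMatrix ℝ).det ≠ 0 ∧ (G₂.adjMatrix ℝ).det ≠ 0 ∧
    ((joinEdge G₁ G₂ v₁ v₂).adjMatrix ℝ).det = 0 := by
  exact ⟨G1, G2, 0, 0, inferInstance, inferInstance, inferInstance, block_G1, block_G2, det_G1, det_G2,
    det_join⟩

end Pool.Agent.Results.MP_025d69_co.JoinSingular
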